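import Pool.Agent.H66.FA.T

/-!
# Left-invariant Finsler metrics on almost abelian groups: row RFL
-/

set_option autoImplicit false

open Matrix

namespace Pool.Agent.H55.FA

open Pool.Agent.H66.FA Pool.Agent.H63.Fins MeasureTheory Filter Topology

theorem rf_rf {m : ℕ} (y : V (m + 1)) : rf (rf y) = y := by
  funext i
  by_cases hi : i = 0
  · simp [rf, hi]
  · simp [rf, hi]

/-- The reflection as a linear map. -/
noncomputable def rl (m : ℕ) : V (m + 1) →ₗ[ℝ] V (m + 1) where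
  toFun := rf
  map_add' x y := by
    funext i
    by_cases hi : i = 0
    · subst hi
      simp [rf]
      ring
    · simp [rf, hi]
  map_smul' c x := by
    funext i
    by_cases hi : i = 0
    · subst hi
      simp [rf]
    · simp [rf, hi]

/-- The reflection as a continuous linear map. -/
noncomputable def rc (m : ℕ) : V (m + 1) →L[ℝ] V (m + 1) := LinearMap.toContinuousLinearMap (rl m)

theorem rc_apply (m : ℕ) (y : V (m + 1)) : rc m y = rf y := rfl

theorem rf_ne {m : ℕ} {y : V (m + 1)} (hy : y ≠ 0) : rf y ≠ 0 := by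
  intro h
  apply hy
  rw [← rf_rf y, h]
  exact (rc m).map_zero

theorem rf_fix {m : ℕ} {y : V (m + 1)} (hy : y 0 = 0) : rf y = y := by
  funext i
  by_cases hi : i = 0
  · subst hi
    simp [rf, hy]
  · simp [rf, hi]

theorem rf_zero {m : ℕ} (y : V (m + 1)) : rf y 0 = -y 0 := by
  simp [rf]

theorem da {n : ℕ} {L : V n → ℝ} (h : ContDiffOn ℝ (⊤ : ℕ∞) L {y | y ≠ 0}) {y : V n} (hy : y ≠ 0) :
    ContDiffAt ℝ (⊤ : ℕ∞) L y :=
  h.contDiffAt (isOpen_ne.mem_nhds hy)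

theorem dL {n : ℕ} {L : V n → ℝ} (h : ContDiffOn ℝ (⊤ : ℕ∞) L {y | y ≠ 0}) {y : V n} (hy : y ≠ 0) :
    DifferentiableAt ℝ L y :=
  (da h hy).differentiableAt (by simp)

theorem ddL {n : ℕ} {L : V n → ℝ} (h : ContDiffOn ℝ (⊤ : ℕ∞) L {y | y ≠ 0}) {y : V n}
    (hy : y ≠ 0) : DifferentiableAt ℝ (fderiv ℝ L) y :=
  ((da h hy).fderiv_right (m := 1) (by norm_cast)).differentiableAt (by simp)

theorem fd_rf {m : ℕ} {L : V (m + 1) → ℝ} (h : ContDiffOn ℝ (⊤ : ℕ∞) L {y | y ≠ 0})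
    {y : V (m + 1)} (hy : y ≠ 0) :
    fderiv ℝ (fun y => L (rf y)) y = (fderiv ℝ L (rf y)).comp (rc m) := by
  have h1 : HasFDerivAt L (fderiv ℝ L (rf y)) (rc m y) := (dL h (rf_ne hy)).hasFDerivAt
  exact (h1.comp y (rc m).hasFDerivAt).fderiv

theorem d1_rf {m : ℕ} {L : V (m + 1) → ℝ} (h : ContDiffOn ℝ (⊤ : ℕ∞) L {y | y ≠ 0})
    {y : V (m + 1)} (hy : y ≠ 0) (u : V (m + 1)) :
    d1 (fun y => L (rf y)) y u = d1 L (rf y) (rf u) := by
  unfold d1
  rw [fd_rf h hy]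
  rfl

theorem d2_rf {m : ℕ} {L : V (m + 1) → ℝ} (h : ContDiffOn ℝ (⊤ : ℕ∞) L {y | y ≠ 0})
    {y : V (m + 1)} (hy : y ≠ 0) (u v : V (m + 1)) :
    d2 (fun y => L (rf y)) y u v = d2 L (rf y) (rf u) (rf v) := by
  have h1 : HasFDerivAt (fderiv ℝ L) (fderiv ℝ (fderiv ℝ L) (rf y)) (rc m y) :=
    (ddL h (rf_ne hy)).hasFDerivAt
  have h2 : HasFDerivAt (fun z => fderiv ℝ L (rf z)) ((fderiv ℝ (fderiv ℝ L) (rf y)).comp (rc m))
      y := h1.comp y (rc m).hasFDerivAt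
  have h3 := (((ContinuousLinearMap.compL ℝ (V (m + 1)) (V (m + 1)) ℝ).flip
    (rc m)).hasFDerivAt (x := fderiv ℝ L (rf y))).comp y h2
  have h4 : fderiv ℝ (fun y => L (rf y)) =ᶠ[𝓝 y] fun z => (fderiv ℝ L (rf z)).comp (rc m) := by
    filter_upwards [isOpen_ne.mem_nhds hy] with z hz
    exact fd_rf h hz
  unfold d2
  rw [h4.fderiv_eq]
  have h5 : fderiv ℝ (fun z => (fderiv ℝ L (rf z)).comp (rc m)) y =
      ((ContinuousLinearMap.compL ℝ (V (m + 1)) (V (m + 1)) ℝ).flip (rc m)).comp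
        ((fderiv ℝ (fderiv ℝ L) (rf y)).comp (rc m)) := h3.fderiv
  rw [h5]
  rfl

/-- The signs. -/
def sg {m : ℕ} (i : Fin (m + 1)) : ℝ := if i = 0 then -1 else 1

theorem sg_sq {m : ℕ} (i : Fin (m + 1)) : sg i * sg i = 1 := by
  unfold sg
  split_ifs <;> norm_num

theorem rf_ee {m : ℕ} (i : Fin (m + 1)) : rf (ee i) = sg i • ee i := by
  funext j
  by_cases hj : j = 0
  · subst hj
    by_cases hi : i = 0
    · subst hi
      simp [rf, ee, sg]
    · have hi' : (0 : Fin (m + 1)) ≠ i := fun h => hi h.symm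
      simp [rf, ee, sg, hi, hi']
  · by_cases hi : i = 0
    · subst hi
      simp [rf, ee, sg, hj]
    · by_cases hij : j = i
      · subst hij
        simp [rf, ee, sg, hj]
      · simp [rf, ee, sg, hj, hi, hij]

theorem DD_rf {m : ℕ} {L : V (m + 1) → ℝ} (h : ContDiffOn ℝ (⊤ : ℕ∞) L {y | y ≠ 0})
    {y : V (m + 1)} (hy : y ≠ 0) : DD (fun y => L (rf y)) y = DD L (rf y) := by
  have h1 : gm (fun y => L (rf y)) y = Matrix.diagonal sg * gm L (rf y) * Matrix.diagonal sg := by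
    ext i j
    rw [Matrix.mul_diagonal, Matrix.diagonal_mul]
    show d2 (fun y => L (rf y)) y (ee i) (ee j) = sg i * d2 L (rf y) (ee i) (ee j) * sg j
    rw [d2_rf h hy, rf_ee, rf_ee]
    unfold d2
    simp only [map_smul, _root_.smul_apply, smul_eq_mul]
    ring
  unfold DD
  rw [h1, Matrix.det_mul, Matrix.det_mul, Matrix.det_diagonal]
  have h2 : (∏ i : Fin (m + 1), sg i) * (∏ i : Fin (m + 1), sg i) = 1 := by
    rw [← Finset.prod_mul_distrib]
    exact Finset.prod_eq_one fun i _ => sg_sq i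
  calc (∏ i : Fin (m + 1), sg i) * (gm L (rf y)).det * (∏ i : Fin (m + 1), sg i)
      = ((∏ i : Fin (m + 1), sg i) * (∏ i : Fin (m + 1), sg i)) * (gm L (rf y)).det := by ring
    _ = (gm L (rf y)).det := by rw [h2, one_mul]

theorem B_rf {m : ℕ} {B : V (m + 1) →L[ℝ] V (m + 1)} (h1 : B (ee 0) = 0) (u : V (m + 1)) :
    B (rf u) = B u := by
  have h2 : rf u = u + (-2 * u 0) • ee 0 := by
    funext i
    by_cases hi : i = 0
    · subst hi
      simp [rf, ee]
      ring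
    · simp [rf, ee, hi]
  rw [h2, map_add, map_smul, h1, smul_zero, add_zero]

theorem pf_RFL (h1 : T_EUL) (h2 : T_REG) : T_RFL := by
  intro m B E L hL hE
  have hs := hL.smooth
  have hB : ∀ u, rf (B u) = B u := fun u => rf_fix (hE.b0 u)
  refine ⟨⟨?_, ?_, ?_, ?_⟩, ?_, ?_, ?_⟩
  · exact hs.comp (rc m).contDiff.contDiffOn fun y hy => rf_ne hy
  · show L (rf 0) = 0
    have : rf (0 : V (m + 1)) = 0 := (rc m).map_zero
    rw [this, hL.zero]
  · intro y c hc
    show L (rf (c • y)) = c ^ 2 * L (rf y)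
    have : rf (c • y) = c • rf y := (rc m).map_smul c y
    rw [this, hL.homog _ _ hc]
  · intro y u hy hu
    rw [d2_rf hs hy]
    exact hL.pos _ _ (rf_ne hy) (rf_ne hu)
  · intro hA v hv hv0
    rw [d1_rf hs hv, hB, rf_fix hv0]
    exact hA v hv hv0
  · intro hZ y ξ hy hξ
    have h3 : ∀ u, d2 L (rf y) (-rf ξ) u =
        u 0 * d1 L (rf y) (B (rf y)) - rf y 0 * d1 L (rf y) (B u) := by
      intro u
      have h4 := hξ (rf u)
      rw [d2_rf hs hy, rf_rf, d1_rf hs hy, d1_rf hs hy, hB, hB, B_rf hE.b1, rf_zero] at h4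
      have h5 : d2 L (rf y) (-rf ξ) u = -d2 L (rf y) (rf ξ) u := by
        unfold d2
        rw [map_neg, _root_.neg_apply]
      rw [h5, h4, B_rf hE.b1, rf_zero]
      ring
    have h6 := hZ (rf y) (-rf ξ) (rf_ne hy) h3
    have h7 : DD (fun y => L (rf y)) =ᶠ[𝓝 y] fun z => DD L (rf z) := by
      filter_upwards [isOpen_ne.mem_nhds hy] with z hz
      exact DD_rf hs hz
    rw [h7.fderiv_eq]
    have hDD : ContDiffOn ℝ (⊤ : ℕ∞) (DD L) {y | y ≠ 0} := (h2 (m + 1) L hL).2.2.2.2.1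
    rw [fd_rf hDD hy]
    show fderiv ℝ (DD L) (rf y) (rf ξ) = 0
    rw [map_neg, neg_eq_zero] at h6
    exact h6
  · intro y hy
    exact DD_rf hs hy

end Pool.Agent.H55.FA
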